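import Mathlib

set_option autoImplicit false

namespace Pool.Agent.Results.MP_18aa7e_al.FreeSubgroup

open Matrix

/-- The six generators `a = a₁₂`, `b = a₁₃`, `c = a₁₄`, `d = a₂₃`, `e = a₂₄`, `f = a₃₄`. -/
inductive Gen
  | a | b | c | d | e | f
  deriving DecidableEq

open Gen

/-- The pairs of commuting generators. -/
def commuting : List (Gen × Gen) := [(a, f), (b, e), (c, d)]

/-- The triples `(x, y, z)` for which `xyz = zyx` is a defining relation. -/
def triples : List (Gen × Gen × Gen) :=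
  [(a, b, d), (b, a, d), (a, d, b),
   (a, c, e), (c, a, e), (a, e, c),
   (b, c, f), (c, b, f), (b, f, c),
   (d, e, f), (e, d, f), (d, f, e)]

/-- The defining relators of `G²₄`. -/
def rels : Set (FreeGroup Gen) :=
  {w | (∃ x : Gen, w = FreeGroup.of x * FreeGroup.of x) ∨
    (∃ p ∈ commuting, w = FreeGroup.of p.1 * FreeGroup.of p.2 *
      (FreeGroup.of p.2 * FreeGroup.of p.1)⁻¹) ∨
    (∃ t ∈ triples, w = FreeGroup.of t.1 * FreeGroup.of t.2.1 * FreeGroup.of t.2.2 *
      (FreeGroup.of t.2.2 * FreeGroup.of t.2.1 * FreeGroup.of t.1)⁻¹)}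

/-- The group `G²₄`. -/
abbrev G24 : Type := PresentedGroup rels

/-- The generators of `G²₄`. -/
def gen (x : Gen) : G24 := PresentedGroup.of x

/-- The matrices of the representation. -/
def mat : Gen → Matrix (Fin 2) (Fin 2) ℚ
  | a => !![0, -1; 2, 0]
  | b => !![1, 0; 2, -1]
  | c => !![1, 0; -2, -1]
  | d => !![1, 1; 0, -1]
  | e => !![1, -1; 0, -1]
  | f => !![1, 0; 0, -1]

lemma det_mat (x : Gen) : (mat x).det ≠ 0 := by
  cases x <;> simp [mat, Matrix.det_fin_two_of]

/-- The invertible matrices. -/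
noncomputable def gl (x : Gen) : GL (Fin 2) ℚ :=
  Matrix.GeneralLinearGroup.mkOfDetNeZero (mat x) (det_mat x)

lemma gl_coe (x : Gen) : (gl x : Matrix (Fin 2) (Fin 2) ℚ) = mat x := rfl

/-- The action on the projective line. -/
noncomputable abbrev act : GL (Fin 2) ℚ →* Equiv.Perm (OnePoint ℚ) :=
  MulAction.toPermHom (GL (Fin 2) ℚ) (OnePoint ℚ)

lemma act_eq {g h : GL (Fin 2) ℚ} {r : ℚ} (hr : r ≠ 0)
    (e : (g : Matrix (Fin 2) (Fin 2) ℚ) = r • (h : Matrix (Fin 2) (Fin 2) ℚ)) :
    act g = act h := by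
  have e' : ∀ i j, g i j = r * h i j := fun i j => by
    have := congrFun (congrFun e i) j
    simpa using this
  ext x
  simp only [MulAction.toPermHom_apply, MulAction.toPerm_apply]
  cases x with
  | infty =>
    rw [OnePoint.smul_infty_eq_ite, OnePoint.smul_infty_eq_ite, e', e']
    by_cases h0 : h 1 0 = 0
    · simp [h0]
    · rw [if_neg (mul_ne_zero hr h0), if_neg h0, mul_div_mul_left _ _ hr]
  | coe x =>
    rw [OnePoint.smul_some_eq_ite, OnePoint.smul_some_eq_ite, e', e', e', e']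
    have h1 : r * h 1 0 * x + r * h 1 1 = r * (h 1 0 * x + h 1 1) := by ring
    have h2 : r * h 0 0 * x + r * h 0 1 = r * (h 0 0 * x + h 0 1) := by ring
    rw [h1, h2]
    by_cases h0 : h 1 0 * x + h 1 1 = 0
    · simp [h0]
    · rw [if_neg (mul_ne_zero hr h0), if_neg h0, mul_div_mul_left _ _ hr]

lemma rels_act (w : FreeGroup Gen) (hw : w ∈ rels) :
    FreeGroup.lift (fun x => act (gl x)) w = 1 := by
  rcases hw with ⟨x, rfl⟩ | ⟨p, hp, rfl⟩ | ⟨t, ht, rfl⟩
  · rw [map_mul, FreeGroup.lift_apply_of, ← map_mul, ← map_one act]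
    have : ∃ r : ℚ, r ≠ 0 ∧ mat x * mat x = r • (1 : Matrix (Fin 2) (Fin 2) ℚ) := by
      cases x
      · refine ⟨-2, by norm_num, ?_⟩
        ext i j
        fin_cases i <;> fin_cases j <;> simp [mat, Matrix.mul_apply, Fin.sum_univ_two]
      all_goals
        refine ⟨1, by norm_num, ?_⟩
        ext i j
        fin_cases i <;> fin_cases j <;> simp [mat, Matrix.mul_apply, Fin.sum_univ_two]
    obtain ⟨r, hr, h⟩ := this
    exact act_eq hr (by simpa [gl_coe] using h)
  · rw [map_mul, map_inv, mul_inv_eq_one, map_mul, map_mul, FreeGroup.lift_apply_of,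
      FreeGroup.lift_apply_of, ← map_mul, ← map_mul]
    refine act_eq (r := -1) (by norm_num) ?_
    rw [Units.val_mul, Units.val_mul, gl_coe, gl_coe]
    simp only [commuting, List.mem_cons, List.not_mem_nil, or_false] at hp
    rcases hp with rfl | rfl | rfl <;> ext i j <;>
        fin_cases i <;> fin_cases j <;> simp [mat, Matrix.mul_apply, Fin.sum_univ_two] <;> norm_num
  · rw [map_mul, map_inv, mul_inv_eq_one, map_mul, map_mul, map_mul, map_mul,
      FreeGroup.lift_apply_of, FreeGroup.lift_apply_of, FreeGroup.lift_apply_of,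
      ← map_mul, ← map_mul, ← map_mul, ← map_mul]
    refine act_eq (r := 1) (by norm_num) ?_
    rw [Units.val_mul, Units.val_mul, Units.val_mul, Units.val_mul, gl_coe, gl_coe, gl_coe,
      one_smul]
    simp only [triples, List.mem_cons, List.not_mem_nil, or_false] at ht
    rcases ht with rfl | rfl | rfl | rfl | rfl | rfl | rfl | rfl | rfl | rfl | rfl | rfl <;>
      ext i j <;>
        fin_cases i <;> fin_cases j <;> simp [mat, Matrix.mul_apply, Fin.sum_univ_two] <;> norm_num

/-- The action of `G²₄` on the rational projective line. -/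
noncomputable def rep : G24 →* Equiv.Perm (OnePoint ℚ) := PresentedGroup.toGroup rels_act

lemma rep_gen (x : Gen) : rep (gen x) = act (gl x) := PresentedGroup.toGroup.of _

/-- The two elements `e d` and `f c`. -/
def pair : Fin 2 → G24 := ![gen e * gen d, gen f * gen c]

lemma ed_coe : ((gl e * gl d : GL (Fin 2) ℚ) : Matrix (Fin 2) (Fin 2) ℚ) = !![1, 2; 0, 1] := by
  rw [Units.val_mul, gl_coe, gl_coe]
  ext i j
  fin_cases i <;> fin_cases j <;> simp [mat, Matrix.mul_apply, Fin.sum_univ_two] <;> norm_num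

lemma fc_coe : ((gl f * gl c : GL (Fin 2) ℚ) : Matrix (Fin 2) (Fin 2) ℚ) = !![1, 0; 2, 1] := by
  rw [Units.val_mul, gl_coe, gl_coe]
  ext i j
  fin_cases i <;> fin_cases j <;> simp [mat, Matrix.mul_apply, Fin.sum_univ_two]

lemma s_coe (x : ℚ) : rep (pair 0) (x : OnePoint ℚ) = ((x + 2 : ℚ) : OnePoint ℚ) := by
  show rep (gen e * gen d) _ = _
  rw [map_mul, rep_gen, rep_gen, ← map_mul]
  show (gl e * gl d) • (x : OnePoint ℚ) = _
  rw [OnePoint.smul_some_eq_ite, ed_coe]
  simp

lemma s_infty : rep (pair 0) (OnePoint.infty : OnePoint ℚ) = OnePoint.infty := by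
  show rep (gen e * gen d) _ = _
  rw [map_mul, rep_gen, rep_gen, ← map_mul]
  show (gl e * gl d) • (OnePoint.infty : OnePoint ℚ) = _
  rw [OnePoint.smul_infty_eq_ite, ed_coe]
  simp

lemma t_coe (x : ℚ) : rep (pair 1) (x : OnePoint ℚ) =
    if 2 * x + 1 = 0 then OnePoint.infty else ((x / (2 * x + 1) : ℚ) : OnePoint ℚ) := by
  show rep (gen f * gen c) _ = _
  rw [map_mul, rep_gen, rep_gen, ← map_mul]
  show (gl f * gl c) • (x : OnePoint ℚ) = _
  rw [OnePoint.smul_some_eq_ite, fc_coe]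
  simp

lemma t_infty : rep (pair 1) (OnePoint.infty : OnePoint ℚ) = ((1 / 2 : ℚ) : OnePoint ℚ) := by
  show rep (gen f * gen c) _ = _
  rw [map_mul, rep_gen, rep_gen, ← map_mul]
  show (gl f * gl c) • (OnePoint.infty : OnePoint ℚ) = _
  rw [OnePoint.smul_infty_eq_ite, fc_coe]
  simp

/-- The attracting sets. -/
def XX : Fin 2 → Set (OnePoint ℚ) :=
  ![{y | y = OnePoint.infty ∨ ∃ x : ℚ, 1 ≤ x ∧ y = (x : OnePoint ℚ)},
    {y | ∃ x : ℚ, (0 ≤ x ∧ x < 1) ∧ y = (x : OnePoint ℚ)}]

/-- The repelling sets. -/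
def YY : Fin 2 → Set (OnePoint ℚ) :=
  ![{y | ∃ x : ℚ, x < -1 ∧ y = (x : OnePoint ℚ)},
    {y | ∃ x : ℚ, (-1 ≤ x ∧ x < 0) ∧ y = (x : OnePoint ℚ)}]

lemma disj : ∀ y : OnePoint ℚ, (y ∈ XX 0 → y ∉ XX 1) ∧ (y ∈ XX 0 → y ∉ YY 0) ∧
    (y ∈ XX 0 → y ∉ YY 1) ∧ (y ∈ XX 1 → y ∉ YY 0) ∧ (y ∈ XX 1 → y ∉ YY 1) ∧
    (y ∈ YY 0 → y ∉ YY 1) := by
  intro y
  cases y with
  | infty => simp [XX, YY]
  | coe y =>
    simp only [XX, YY, Fin.isValue, Matrix.cons_val_zero, Matrix.cons_val_one, Set.mem_ofPred_eq,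
      OnePoint.coe_ne_infty, OnePoint.coe_eq_coe, false_or, exists_eq_right']
    refine ⟨?_, ?_, ?_, ?_, ?_, ?_⟩ <;> intro h h' <;> linarith [h, h']

lemma inv_eq {g : Equiv.Perm (OnePoint ℚ)} {y z : OnePoint ℚ} (h : g z = y) : g⁻¹ y = z := by
  rw [← h]
  exact g.symm_apply_apply z

lemma s_maps (y : OnePoint ℚ) (hy : y ∉ YY 0) : rep (pair 0) y ∈ XX 0 := by
  cases y with
  | infty =>
    rw [s_infty]
    left
    rfl
  | coe x =>
    rw [s_coe]
    right
    refine ⟨x + 2, ?_, rfl⟩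
    by_contra h
    exact hy ⟨x, by linarith, rfl⟩

lemma s_maps' (y : OnePoint ℚ) (hy : y ∉ XX 0) : (rep (pair 0))⁻¹ y ∈ YY 0 := by
  cases y with
  | infty => exact absurd (Or.inl rfl) hy
  | coe x =>
    have h1 : (rep (pair 0))⁻¹ (x : OnePoint ℚ) = ((x - 2 : ℚ) : OnePoint ℚ) := by
      apply inv_eq
      rw [s_coe]
      congr 1
      ring
    rw [h1]
    refine ⟨x - 2, ?_, rfl⟩
    by_contra h
    exact hy (Or.inr ⟨x, by linarith, rfl⟩)

lemma t_maps (y : OnePoint ℚ) (hy : y ∉ YY 1) : rep (pair 1) y ∈ XX 1 := by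
  cases y with
  | infty =>
    rw [t_infty]
    exact ⟨1 / 2, by norm_num, rfl⟩
  | coe x =>
    rw [t_coe]
    have hx : x < -1 ∨ 0 ≤ x := by
      by_contra h
      push Not at h
      exact hy ⟨x, h, rfl⟩
    rcases hx with hx | hx
    · have h1 : 2 * x + 1 < 0 := by linarith
      rw [if_neg h1.ne]
      refine ⟨x / (2 * x + 1), ⟨?_, ?_⟩, rfl⟩
      · exact div_nonneg_of_nonpos (by linarith) h1.le
      · rw [div_lt_one_of_neg h1]
        linarith
    · have h1 : 0 < 2 * x + 1 := by linarith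
      rw [if_neg h1.ne']
      refine ⟨x / (2 * x + 1), ⟨?_, ?_⟩, rfl⟩
      · exact div_nonneg hx h1.le
      · rw [div_lt_one h1]
        linarith

lemma t_maps' (y : OnePoint ℚ) (hy : y ∉ XX 1) : (rep (pair 1))⁻¹ y ∈ YY 1 := by
  cases y with
  | infty =>
    have h1 : (rep (pair 1))⁻¹ (OnePoint.infty : OnePoint ℚ) = ((-1 / 2 : ℚ) : OnePoint ℚ) := by
      apply inv_eq
      rw [t_coe]
      norm_num
    rw [h1]
    exact ⟨-1 / 2, by norm_num, rfl⟩
  | coe x =>
    have hx : x < 0 ∨ 1 ≤ x := by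
      by_contra h
      push Not at h
      exact hy ⟨x, h, rfl⟩
    have h0 : 1 - 2 * x ≠ 0 := by
      intro h
      rcases hx with hx | hx <;> linarith
    have h1 : (rep (pair 1))⁻¹ (x : OnePoint ℚ) = ((x / (1 - 2 * x) : ℚ) : OnePoint ℚ) := by
      apply inv_eq
      rw [t_coe]
      have h2 : 2 * (x / (1 - 2 * x)) + 1 = 1 / (1 - 2 * x) := by
        field_simp
        ring
      rw [h2, if_neg (by simpa using h0)]
      congr 1
      rw [div_div_div_cancel_right₀ h0, div_one]
    rw [h1]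
    refine ⟨_, ?_, rfl⟩
    rcases hx with hx | hx
    · have h2 : 0 < 1 - 2 * x := by linarith
      refine ⟨?_, ?_⟩
      · rw [le_div_iff₀ h2]
        linarith
      · exact div_neg_of_neg_of_pos hx h2
    · have h2 : 1 - 2 * x < 0 := by linarith
      refine ⟨?_, ?_⟩
      · rw [le_div_iff_of_neg h2]
        linarith
      · exact div_neg_of_pos_of_neg (by linarith) h2

/-- **`G²₄` contains a nonabelian free group**: the elements `e d = a₂₄ a₂₃` and
`f c = a₃₄ a₁₄` freely generate a free subgroup of rank two. -/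
theorem result : Function.Injective (FreeGroup.lift ![gen e * gen d, gen f * gen c]) := by
  have key : Function.Injective (FreeGroup.lift (fun i : Fin 2 => rep (pair i))) := by
    apply FreeGroup.injective_lift_of_ping_pong (α := OnePoint ℚ) _ XX YY
    · intro i
      fin_cases i
      · exact ⟨OnePoint.infty, Or.inl rfl⟩
      · exact ⟨((0 : ℚ) : OnePoint ℚ), 0, by norm_num, rfl⟩
    · intro i j hij
      fin_cases i <;> fin_cases j
      · exact absurd rfl hij
      · exact Set.disjoint_left.2 fun y hy hy' => (disj y).1 hy hy'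
      · exact Set.disjoint_left.2 fun y hy hy' => (disj y).1 hy' hy
      · exact absurd rfl hij
    · intro i j hij
      fin_cases i <;> fin_cases j
      · exact absurd rfl hij
      · exact Set.disjoint_left.2 fun y hy hy' => (disj y).2.2.2.2.2 hy hy'
      · exact Set.disjoint_left.2 fun y hy hy' => (disj y).2.2.2.2.2 hy' hy
      · exact absurd rfl hij
    · intro i j
      fin_cases i <;> fin_cases j
      · exact Set.disjoint_left.2 fun y hy hy' => (disj y).2.1 hy hy'
      · exact Set.disjoint_left.2 fun y hy hy' => (disj y).2.2.1 hy hy'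
      · exact Set.disjoint_left.2 fun y hy hy' => (disj y).2.2.2.1 hy hy'
      · exact Set.disjoint_left.2 fun y hy hy' => (disj y).2.2.2.2.1 hy hy'
    · intro i
      rintro _ ⟨y, hy, rfl⟩
      fin_cases i
      · exact s_maps y hy
      · exact t_maps y hy
    · intro i
      rintro _ ⟨y, hy, rfl⟩
      fin_cases i
      · exact s_maps' y hy
      · exact t_maps' y hy
  have h2 : FreeGroup.lift (fun i : Fin 2 => rep (pair i)) =
      rep.comp (FreeGroup.lift ![gen e * gen d, gen f * gen c]) := by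
    apply FreeGroup.ext_hom
    intro i
    rw [FreeGroup.lift_apply_of, MonoidHom.comp_apply, FreeGroup.lift_apply_of]
    rfl
  rw [h2] at key
  exact Function.Injective.of_comp key

end Pool.Agent.Results.MP_18aa7e_al.FreeSubgroup
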